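import Pool.Agent.ADT.T6
import Pool.Agent.ADH.T7
import Pool.Agent.ADH.V7
import Pool.Agent.FRT.P4
import Pool.Agent.QD.Crit
import Pool.Agent.QD.G
import Pool.Agent.QD.HW
import Pool.Agent.QD.T4

/-!
# The fields of functions of elliptic surfaces: the property `Emt`
-/

set_option autoImplicit false

namespace Pool.Agent.EST

open Polynomial Pool.Agent.TUQ Pool.Agent.WLD Pool.Agent.ADT Pool.Agent.UQ WeierstrassCurve
  WeierstrassCurve.Affine Pool.Agent.EFF Pool.Agent.QD Pool.Agent.ADH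

open scoped Classical

section

variable {k M : Type} [Field k] [Field M] [Algebra k M]

/-- `M` is algebraic over `k(x, y, s)` -/
theorem alg_xys (htd : Algebra.trdeg k M = 2) (s x y : M) (hs : Transcendental k s)
    (hx : Transcendental (IntermediateField.adjoin k {s}) x) (b : M) :
    IsAlgebraic (IntermediateField.adjoin k ({x, y, s} : Set M)) b := by
  have hm := IntermediateField.mem_adjoin_simple_self k s
  have hs' : Transcendental k (⟨s, hm⟩ : IntermediateField.adjoin k {s}) := by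
    intro h
    exact hs (h.algebraMap (A := M))
  have h1 := cr_alg htd (⟨s, hm⟩ : IntermediateField.adjoin k {s}) hs' x hx b
  have h2 : (IntermediateField.adjoin (IntermediateField.adjoin k {s})
      ({x} : Set M)).restrictScalars k ≤ IntermediateField.adjoin k ({x, y, s} : Set M) := by
    rw [IntermediateField.adjoin_adjoin_left, IntermediateField.adjoin_le_iff]
    rintro _ (rfl | rfl)
    · exact IntermediateField.subset_adjoin _ _ (by simp)
    · exact IntermediateField.subset_adjoin _ _ (by simp)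
  exact alg_le h2 h1

theorem ne_aeval (s x : M) (hx : Transcendental (IntermediateField.adjoin k {s}) x) (G : k[X]) :
    x ≠ aeval s G := by
  intro h
  apply hx
  have h1 : x ∈ IntermediateField.adjoin k {s} := by
    rw [h]
    exact h_aeval_mem _ s (IntermediateField.mem_adjoin_simple_self k s) G
  exact isAlgebraic_algebraMap (⟨x, h1⟩ : IntermediateField.adjoin k {s})

omit [Field M] [Algebra k M] [Field k] in
theorem range3 (x y s : M) : Set.range ![x, y, s] = ({x, y, s} : Set M) := by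
  ext a
  constructor
  · rintro ⟨i, rfl⟩
    fin_cases i <;> simp
  · rintro (rfl | rfl | rfl)
    exacts [⟨0, rfl⟩, ⟨1, rfl⟩, ⟨2, rfl⟩]

variable [IsAlgClosed M]

/-- the case (b1) -/
theorem emt_b1 (p : ℕ) [Fact p.Prime] [CharP k p] (htd : Algebra.trdeg k M = 2)
    (s x y : M) (W : WeierstrassCurve k[X]) (hy : MvPolynomial.aeval ![x, y, s] (wpoly W) = 0)
    (hal : ∀ b : M, IsAlgebraic (IntermediateField.adjoin k ({x, y, s} : Set M)) b)
    (e m : ℕ) (he : 2 ≤ e) (hep : ¬ p ∣ e) (hm : 0 < m)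
    (hW : DegLe W (1 - m * (1 - 1 / e - 1 / p))) (S : Finset M)
    (hS : ∀ z ∈ S, ∃ φ F : k[X], AddPoly φ ∧ derivative φ ≠ 0 ∧ F.natDegree ≤ m ∧
      aeval z φ = aeval s F) (F : IntermediateField k M)
    (hle : F ≤ IntermediateField.adjoin k (({x, y, s} : Set M) ∪ (S : Set M)))
    (hFal : ∀ b : M, IsAlgebraic F b) : Emt F := by
  have hp : 0 < p := (Fact.out : p.Prime).pos
  have he0 : 0 < e := by omega
  have hek : (e : k) ≠ 0 := fun h => hep ((CharP.cast_eq_zero_iff k p e).1 h)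
  obtain ⟨w1, w2, w3, w4, w6⟩ := hW
  obtain ⟨N, hN⟩ := num_nonneg e p m he0 hp ((Nat.cast_nonneg _).trans w1)
  have hWd : WDeg W N (e * p) := by
    refine ⟨?_, ?_, ?_, ?_, ?_⟩
    · have := num_aux 1 W.a₁.natDegree e p m N he0 hp hN (by rw [Nat.cast_one, one_mul]; exact w1)
      rwa [one_mul] at this
    · exact num_aux 2 _ e p m N he0 hp hN (by exact_mod_cast w2)
    · exact num_aux 3 _ e p m N he0 hp hN (by exact_mod_cast w3)
    · exact num_aux 4 _ e p m N he0 hp hN (by exact_mod_cast w4)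
    · exact num_aux 6 _ e p m N he0 hp hN (by exact_mod_cast w6)
  have hpos : 0 < m * (e * p) := Nat.mul_pos hm (Nat.mul_pos he0 hp)
  have hq1 : MvPolynomial.aeval ![x, y, s] (1 : MvPolynomial (Fin 3) k) ≠ 0 := by
    rw [map_one]
    exact one_ne_zero
  rw [← range3] at hal hle
  refine tower_injG p htd ![x, y, s] hal (wpoly W) 1 (wpoly_ne_zero W) hy hq1
    ![2 * N, 3 * N, e * p] e (m * p) (m * e) (6 * N) (m * (e * p)) he hek
    (wle_wpoly W N (e * p) hWd _ rfl rfl rfl) (le_of_eq (by ring)) ?_ ?_ S ?_ F hle hFal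
  · have := wle_one (k := k) ![2 * N, 3 * N, e * p]
    have h0 : MvPolynomial.weightedTotalDegree ![2 * N, 3 * N, e * p]
      (1 : MvPolynomial (Fin 3) k) = 0 := Nat.le_zero.1 this
    rw [h0, mul_zero, zero_add]
    exact max_le hpos (le_of_eq (by ring))
  · show 6 * N + m * (e * p) ≤ 2 * N + 3 * N + e * p + m * p + m * e
    have h4 : N + m * (e * p) = e * p + m * e + m * p := hN
    omega
  · intro z hz
    obtain ⟨φ, G, a1, a2, a3, a4⟩ := hS z hz
    refine ⟨φ, aeval (MvPolynomial.X 2) G, a1, a2, ?_, ?_⟩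
    · exact (wle_aeval_X _ 2 G).trans (Nat.mul_le_mul_right _ a3)
    · rw [map_one, one_pow, mul_one, ← Polynomial.aeval_algHom_apply, MvPolynomial.aeval_X, a4]
      rfl

/-- the case (b2) -/
theorem emt_42 (p : ℕ) [Fact p.Prime] [CharP k p] (htd : Algebra.trdeg k M = 2) (s x y : M)
    (hs : Transcendental k s) (hxs : ∀ G : k[X], x ≠ aeval s G)
    (W : WeierstrassCurve k[X]) (hy : MvPolynomial.aeval ![x, y, s] (wpoly W) = 0)
    (hal : ∀ b : M, IsAlgebraic (IntermediateField.adjoin k ({x, y, s} : Set M)) b)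
    (e α γ : ℕ) (he : 2 ≤ e) (hek : (e : k) ≠ 0) (hpe : p * e = 6) (h1 : e * α ≤ 42)
    (h2 : p * γ ≤ 42) (h2' : e * (p - 1) * 6 + γ ≤ 42) (h3 : 42 ≤ 7 + α + γ) (hgeo : Geo W)
    (S : Finset M)
    (hS : ∀ z ∈ S, ∃ φ F : k[X], AddPoly φ ∧ derivative φ ≠ 0 ∧ F.natDegree ≤ 6 ∧
      aeval z φ = aeval s F) (F : IntermediateField k M)
    (hle : F ≤ IntermediateField.adjoin k (({x, y, s} : Set M) ∪ (S : Set M)))
    (hFal : ∀ b : M, IsAlgebraic F b) : Emt F := by
  obtain ⟨U, S₁, hU, hS₁, hx₁, hy₁⟩ := hgeo M _ _ inferInstance x y s hs hxs hy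
  -- the elements of `M` are algebraic over `k(U, s)`
  have hUal : ∀ b : M, IsAlgebraic
      (IntermediateField.adjoin k (Set.range ![U, s, 0])) b := by
    obtain ⟨A, hA⟩ : ∃ A, A = IntermediateField.adjoin k (Set.range ![U, s, 0]) := ⟨_, rfl⟩
    have hxy : ∀ a ∈ IntermediateField.adjoin k
        (Set.range ![U, s, 0] ∪ (S₁ : Set M)), IsAlgebraic A a := by
      intro a ha
      refine alg_adjoin A _ ?_ a ha
      rintro b (hb | hb)
      · have hbA : b ∈ A := by
          rw [hA]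
          exact IntermediateField.subset_adjoin _ _ hb
        exact isAlgebraic_algebraMap (⟨b, hbA⟩ : A)
      · rw [hA]
        exact (hS₁ b hb).alg hU
    rw [← hA]
    intro b
    refine algTrans (K := IntermediateField.adjoin k ({x, y, s} : Set M)) A
      (fun a => ?_) b (hal b)
    refine alg_adjoin A _ ?_ (a : M) a.2
    rintro _ (rfl | rfl | rfl)
    · exact hxy _ hx₁
    · exact hxy _ hy₁
    · exact hxy _ (IntermediateField.subset_adjoin _ _ (Or.inl ⟨1, rfl⟩))
  -- the field is contained in the tower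
  obtain ⟨T, hT⟩ : ∃ T : Finset M, T = S₁ ∪ S := ⟨_, rfl⟩
  have hB₁ : IntermediateField.adjoin k (Set.range ![U, s, 0] ∪ (S₁ : Set M)) ≤
      IntermediateField.adjoin k (Set.range ![U, s, 0] ∪ (T : Set M)) := by
    apply IntermediateField.adjoin.mono
    apply Set.union_subset_union_right
    rw [hT, Finset.coe_union]
    exact Set.subset_union_left
  have hle' : F ≤ IntermediateField.adjoin k (Set.range ![U, s, 0] ∪ (T : Set M)) := by
    refine hle.trans ?_
    rw [IntermediateField.adjoin_le_iff]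
    rintro b ((rfl | rfl | rfl) | hb)
    · exact hB₁ hx₁
    · exact hB₁ hy₁
    · exact IntermediateField.subset_adjoin _ _ (Or.inl ⟨1, rfl⟩)
    · refine IntermediateField.subset_adjoin _ _ (Or.inr ?_)
      rw [hT, Finset.coe_union]
      exact Or.inr hb
  -- the theorem on the towers
  have hX2 : (MvPolynomial.X 2 : MvPolynomial (Fin 3) k) ≠ 0 := MvPolynomial.X_ne_zero _
  refine tower_injH p htd ![U, s, 0] hUal (MvPolynomial.X 2) (MvPolynomial.X 0)
    hX2 ?_ ?_ w42 e α γ 6 0 42 he hek (wle_X _ _) (wle_X _ _) h1 h2 h2' ?_ ?_ T ?_ _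
    hle' hFal
  · rw [MvPolynomial.aeval_X]
    rfl
  · rw [MvPolynomial.aeval_X]
    exact hU
  · rw [hpe]
    norm_num
  · show 0 + 42 ≤ 6 + 1 + 0 + α + γ
    omega
  · intro z hz
    rw [hpe]
    rw [hT, Finset.mem_union] at hz
    rcases hz with hz | hz
    · obtain ⟨φ, f, a1, a2, a3, a4⟩ := hS₁ z hz
      refine ⟨φ, f, a1, a2, a3, ?_⟩
      rw [MvPolynomial.aeval_X]
      exact a4
    · obtain ⟨φ, G, a1, a2, a3, a4⟩ := hS z hz
      refine ⟨φ, aeval (MvPolynomial.X 1) G * MvPolynomial.X 0 ^ 6, a1, a2, ?_, ?_⟩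
      · refine (wle_mul _ _ _ _ _ (wle_aeval_X _ 1 G) (wle_X_pow _ 0 6)).trans ?_
        show G.natDegree * 1 + 6 * 6 ≤ 42
        omega
      · rw [map_mul, map_pow, MvPolynomial.aeval_X, ← Polynomial.aeval_algHom_apply,
          MvPolynomial.aeval_X, a4]
        rfl

/-- the case (b3) -/
theorem emt_b3 [CharP k 3] (htd : Algebra.trdeg k M = 2) (s x y : M)
    (W : WeierstrassCurve k[X]) (w1 : W.a₁ = 0) (w3 : W.a₃ = 0)
    (hy : MvPolynomial.aeval ![x, y, s] (wpoly W) = 0)
    (hal : ∀ b : M, IsAlgebraic (IntermediateField.adjoin k ({x, y, s} : Set M)) b)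
    (d2 : W.a₂.natDegree = 0) (d4 : W.a₄.natDegree ≤ 12) (d6 : W.a₆.natDegree ≤ 24)
    (S : Finset M)
    (hS : ∀ z ∈ S, ∃ φ F : k[X], AddPoly φ ∧ derivative φ ≠ 0 ∧ F.natDegree ≤ 6 ∧
      aeval z φ = aeval s F) (F : IntermediateField k M)
    (hle : F ≤ IntermediateField.adjoin k (({x, y, s} : Set M) ∪ (S : Set M)))
    (hFal : ∀ b : M, IsAlgebraic F b) : Emt F := by
  have heq : y ^ 2 = x ^ 3 + aeval s W.a₂ * x ^ 2 + aeval s W.a₄ * x + aeval s W.a₆ := by
    have h1 := hy
    rw [aeval_wpoly, w1, w3] at h1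
    simp only [Matrix.cons_val_zero, Matrix.cons_val_one, Matrix.cons_val, map_zero] at h1
    linear_combination h1
  obtain ⟨A, hA⟩ : ∃ A, A = IntermediateField.adjoin k (Set.range ![x, s, 0]) := ⟨_, rfl⟩
  have hxA : x ∈ A := by
    rw [hA]
    exact IntermediateField.subset_adjoin _ _ ⟨0, rfl⟩
  have hsA : s ∈ A := by
    rw [hA]
    exact IntermediateField.subset_adjoin _ _ ⟨1, rfl⟩
  have hpA : ∀ q : k[X], aeval s q ∈ A := fun q => h_aeval_mem A s hsA q
  have hyA : IsAlgebraic A y := by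
    refine IsAlgebraic.of_pow (n := 2) (by norm_num) ?_
    have h1 : y ^ 2 ∈ A := by
      rw [heq]
      exact add_mem (add_mem (add_mem (pow_mem hxA 3) (mul_mem (hpA _) (pow_mem hxA 2)))
        (mul_mem (hpA _) hxA)) (hpA _)
    exact isAlgebraic_algebraMap (⟨_, h1⟩ : A)
  have hal' : ∀ w : M, IsAlgebraic A w := by
    intro w
    refine algTrans (K := IntermediateField.adjoin k ({x, y, s} : Set M)) A (fun w => ?_) w (hal w)
    refine alg_adjoin A _ ?_ (w : M) w.2
    rintro _ (rfl | rfl | rfl)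
    · exact isAlgebraic_algebraMap (⟨_, hxA⟩ : A)
    · exact hyA
    · exact isAlgebraic_algebraMap (⟨_, hsA⟩ : A)
  rw [hA] at hal'
  refine FRT.emt_T3 htd x s y hal' 1 W.a₂ W.a₄ W.a₆ ?_ ?_ 12 3 8 24 (by norm_num) (by omega)
    (by omega) d6 (by norm_num) ?_ ?_ (by norm_num) (by norm_num) S (fun z hz => ?_) F
    (hle.trans ?_) hFal
  · rw [map_one]
    exact one_ne_zero
  · rw [map_one, one_pow, one_pow, mul_one, one_mul, heq]
    ring
  · rw [natDegree_one]
    norm_num
  · rw [natDegree_one]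
    norm_num
  · obtain ⟨φ, G, a1, a2, a3, a4⟩ := hS z hz
    refine ⟨φ, G, a1, a2, by omega, ?_⟩
    rw [map_one, one_pow, mul_one]
    exact a4
  · rw [IntermediateField.adjoin_le_iff]
    rintro b ((rfl | rfl | rfl) | hb)
    · exact IntermediateField.subset_adjoin _ _ (Or.inl ⟨0, rfl⟩)
    · exact IntermediateField.subset_adjoin _ _ (Or.inr (Or.inl rfl))
    · exact IntermediateField.subset_adjoin _ _ (Or.inl ⟨1, rfl⟩)
    · exact IntermediateField.subset_adjoin _ _ (Or.inr (Or.inr hb))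

/-- the case (a), `p = 5` -/
theorem emt_a5 [CharP k 5] (htd : Algebra.trdeg k M = 2) (s x y : M) (hs : Transcendental k s)
    (hx : Transcendental (IntermediateField.adjoin k {s}) x)
    (W : WeierstrassCurve k[X]) (hΔ : W.Δ ≠ 0) (w1 : W.a₁ = 0) (w2 : W.a₂ = 0) (w3 : W.a₃ = 0)
    (g : k[X]) (w4 : W.a₄ = g ^ 5) (hg : g.natDegree ≤ 4) (d6 : W.a₆.natDegree ≤ 30)
    (hy : MvPolynomial.aeval ![x, y, s] (wpoly W) = 0)
    (hal : ∀ b : M, IsAlgebraic (IntermediateField.adjoin k ({x, y, s} : Set M)) b)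
    (F : IntermediateField k M) (hle : F ≤ IntermediateField.adjoin k ({x, y, s} : Set M))
    (hFal : ∀ b : M, IsAlgebraic F b) : Emt F := by
  by_cases h0 : g = 0
  · refine wemt_hw5 W w1 w2 w3 ?_ M htd s x y hs hy hx hal F hle hFal
    rw [w4, h0]
    exact zero_pow (by norm_num)
  · have heq : y ^ 2 = x ^ 3 + aeval s W.a₄ * x + aeval s W.a₆ := by
      have h1 := hy
      rw [aeval_wpoly, w1, w2, w3] at h1
      simp only [Matrix.cons_val_zero, Matrix.cons_val_one, Matrix.cons_val, map_zero] at h1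
      linear_combination h1
    have h5 : (5 : k[X]) = 0 := by exact_mod_cast CharP.cast_eq_zero k[X] 5
    have hΔ' : W.a₆ ^ 2 + 2 * W.a₄ ^ 3 ≠ 0 := by
      intro h
      apply hΔ
      rw [WeierstrassCurve.Δ, WeierstrassCurve.b₂, WeierstrassCurve.b₄, WeierstrassCurve.b₆,
        WeierstrassCurve.b₈, w1, w2, w3]
      linear_combination 3 * h - (14 * W.a₄ ^ 3 + 87 * W.a₆ ^ 2) * h5
    have hset : IntermediateField.adjoin k ({x, y, s} : Set M) ≤
        IntermediateField.adjoin k {s, x, y} := by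
      rw [IntermediateField.adjoin_le_iff]
      rintro _ (rfl | rfl | rfl)
      · exact IntermediateField.subset_adjoin _ _ (by simp)
      · exact IntermediateField.subset_adjoin _ _ (by simp)
      · exact IntermediateField.subset_adjoin _ _ (by simp)
    have h45 : W.a₄ = g ^ 5 * 1 := by rw [w4, mul_one]
    rw [h45] at hΔ' heq
    obtain ⟨B, hBfg, hsB, hxB, hyB, hE⟩ := emt_V htd g 1 W.a₆ h0 one_ne_zero hΔ'
      (by rw [natDegree_one]; omega) (by rw [natDegree_one]; omega) s x y hs heq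
      (fun b => alg_le hset (hal b))
    refine emt_sub F B (hle.trans ?_) hBfg hFal hE
    rw [IntermediateField.adjoin_le_iff]
    rintro _ (rfl | rfl | rfl)
    · exact hxB
    · exact hyB
    · exact hsB

end

end Pool.Agent.EST
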