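import Pool.Agent.EST.A

/-!
# The fields of functions of elliptic surfaces: `y² = G(x, g, h)`, Jacobians, and towers over `k(U)`
-/

set_option autoImplicit false

namespace Pool.Agent.EST

open Polynomial Pool.Agent.TUQ Pool.Agent.WLD Pool.Agent.ADT Pool.Agent.UQ WeierstrassCurve
  WeierstrassCurve.Affine Pool.Agent.EFF Pool.Agent.QD Pool.Agent.ADH

open scoped Classical

section

variable {k M : Type} [Field k] [Field M] [Algebra k M] [IsAlgClosed M]

/-- `E : y² = C(x, g(s), h(s))`, where `C` is a cubic form -/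
theorem emt_form (p : ℕ) [Fact p.Prime] [CharP k p] (hp2 : p ≠ 2) (htd : Algebra.trdeg k M = 2)
    (s x y : M) (hs : Transcendental k s) (W : WeierstrassCurve k[X]) (hΔ : W.Δ ≠ 0)
    (c : Fin 9 → k) (g h : k[X]) (hgh : TEmt k g h) (w1 : W.a₁ = 0) (w3 : W.a₃ = 0)
    (w2 : W.a₂ = C (c 0) * g + C (c 1) * h)
    (w4 : W.a₄ = C (c 2) * g ^ 2 + C (c 3) * g * h + C (c 4) * h ^ 2)
    (w6 : W.a₆ = C (c 5) * g ^ 3 + C (c 6) * g ^ 2 * h + C (c 7) * g * h ^ 2 + C (c 8) * h ^ 3)
    (hy : MvPolynomial.aeval ![x, y, s] (wpoly W) = 0)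
    (hal : ∀ b : M, IsAlgebraic (IntermediateField.adjoin k ({x, y, s} : Set M)) b)
    (F : IntermediateField k M) (hle : F ≤ IntermediateField.adjoin k ({x, y, s} : Set M))
    (hFal : ∀ b : M, IsAlgebraic F b) : Emt F := by
  obtain ⟨z, hz⟩ : ∃ z, z = s := ⟨_, rfl⟩
  have hsM := hs
  rw [← hz] at hsM
  have hCM : CharP M p := charP_of_injective_algebraMap (algebraMap k M).injective p
  have hM2 : (2 : M) ≠ 0 := by
    intro h2
    have h3 : ((2 : ℕ) : M) = 0 := by exact_mod_cast h2
    rw [CharP.cast_eq_zero_iff M p] at h3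
    exact hp2 ((Nat.prime_dvd_prime_iff_eq Fact.out Nat.prime_two).1 h3)
  obtain ⟨G, hG⟩ : ∃ G, G = aeval z g := ⟨_, rfl⟩
  obtain ⟨H, hH⟩ : ∃ H, H = aeval z h := ⟨_, rfl⟩
  have hmem : ∀ q : k[X], aeval z q ∈ IntermediateField.adjoin k {z} := fun q =>
    IntermediateField.algebra_adjoin_le_adjoin k {z} (Polynomial.aeval_mem_adjoin_singleton k z)
  have hGz : G ∈ IntermediateField.adjoin k {z} := by
    rw [hG]
    exact hmem g
  have hHz : H ∈ IntermediateField.adjoin k {z} := by
    rw [hH]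
    exact hmem h
  have hD : t_disc (algebraMap k M (c 5) * G ^ 3 + algebraMap k M (c 6) * G ^ 2 * H +
        algebraMap k M (c 7) * G * H ^ 2 + algebraMap k M (c 8) * H ^ 3)
      (algebraMap k M (c 2) * G ^ 2 + algebraMap k M (c 3) * G * H + algebraMap k M (c 4) * H ^ 2)
      (algebraMap k M (c 0) * G + algebraMap k M (c 1) * H) 1 ≠ 0 := by
    have h1 : W.Δ = 16 * t_disc W.a₆ W.a₄ W.a₂ 1 := by
      rw [WeierstrassCurve.Δ, WeierstrassCurve.b₂, WeierstrassCurve.b₄, WeierstrassCurve.b₆,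
        WeierstrassCurve.b₈, w1, w3, t_disc]
      ring
    intro h2
    apply hΔ
    apply transcendental_iff_injective.1 hsM
    rw [map_zero, h1, w2, w4, w6]
    simp only [t_disc, map_mul, map_add, map_sub, map_pow, map_ofNat, map_one, aeval_C, ← hG, ← hH]
    rw [t_disc] at h2
    linear_combination 16 * h2
  have heq : y ^ 2 = t_C (fun i => algebraMap k M (c i)) x G H := by
    have h1 := hy
    rw [aeval_wpoly, w1, w3, w4, w2, w6] at h1
    simp only [Matrix.cons_val_zero, Matrix.cons_val_one, Matrix.cons_val, map_zero,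
      map_mul, map_pow, map_add, aeval_C, ← hz, ← hG, ← hH] at h1
    rw [t_C]
    linear_combination h1
  have hal0 : ∀ w : M, IsAlgebraic (IntermediateField.adjoin k ({z, x, y} : Set M)) w := by
    have h1 : IntermediateField.adjoin k ({x, y, s} : Set M) ≤
        IntermediateField.adjoin k ({z, x, y} : Set M) := by
      rw [IntermediateField.adjoin_le_iff]
      rintro _ (rfl | rfl | rfl)
      · exact IntermediateField.subset_adjoin _ _ (by simp)
      · exact IntermediateField.subset_adjoin _ _ (by simp)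
      · rw [← hz]
        exact IntermediateField.subset_adjoin _ _ (by simp)
    exact fun w => alg_le h1 (hal w)
  obtain ⟨F₀, l, m, w, hF₀, hF₀td, hw, hxw, hyw⟩ := t_point hM2 htd c z x y G H hGz hHz hD heq hal0
  have hle3 : IntermediateField.adjoin k ({x, y, s} : Set M) ≤
      F₀ ⊔ IntermediateField.adjoin k ({w, z} : Set M) := by
    rw [IntermediateField.adjoin_le_iff]
    rintro _ (rfl | rfl | rfl)
    · exact hxw
    · exact hyw
    · rw [← hz]
      exact (le_sup_right : IntermediateField.adjoin k ({w, z} : Set M) ≤ _)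
        (IntermediateField.subset_adjoin _ _ (by simp))
  exact hgh M htd F₀ w z hF₀ hF₀td (fun b => alg_le hle3 (hal b)) F (hle.trans hle3) hFal l m (by
    rw [hw, hG, hH])

/-- the Jacobian of `v ^ 2 = ∑ B_i u ^ i` -/
theorem emt_jac (p : ℕ) [Fact p.Prime] [CharP k p] (hp2 : p ≠ 2) (htd : Algebra.trdeg k M = 2)
    (s x y : M) (hs : Transcendental k s) (W : WeierstrassCurve k[X]) (hΔ : W.Δ ≠ 0)
    (B : Fin 5 → k[X]) (hB : HEmt k B) (w1 : W.a₁ = 0)
    (w3 : W.a₃ = 0) (w2 : W.a₂ = B 2) (w4 : W.a₄ = B 3 * B 1 - 4 * B 4 * B 0)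
    (w6 : W.a₆ = B 3 ^ 2 * B 0 + B 4 * B 1 ^ 2 - 4 * B 4 * B 2 * B 0)
    (hy : MvPolynomial.aeval ![x, y, s] (wpoly W) = 0)
    (hal : ∀ b : M, IsAlgebraic (IntermediateField.adjoin k ({x, y, s} : Set M)) b)
    (F : IntermediateField k M) (hle : F ≤ IntermediateField.adjoin k ({x, y, s} : Set M))
    (hFal : ∀ b : M, IsAlgebraic F b) : Emt F := by
  obtain ⟨t, ht⟩ : ∃ t, t = s := ⟨_, rfl⟩
  have hsM := hs
  rw [← ht] at hsM
  obtain ⟨a, ha⟩ : ∃ a, a = aeval t (B 4) := ⟨_, rfl⟩
  obtain ⟨b, hb⟩ : ∃ b, b = aeval t (B 3) := ⟨_, rfl⟩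
  obtain ⟨e2, he2⟩ : ∃ e2, e2 = aeval t (B 2) := ⟨_, rfl⟩
  obtain ⟨d, hd⟩ : ∃ d, d = aeval t (B 1) := ⟨_, rfl⟩
  obtain ⟨e, he⟩ : ∃ e, e = aeval t (B 0) := ⟨_, rfl⟩
  have hD : h_D e2 (b * d - 4 * a * e) (b ^ 2 * e + a * d ^ 2 - 4 * a * e2 * e) ≠ 0 := by
    have h1 : W.Δ = 16 * (W.a₂ ^ 2 * W.a₄ ^ 2 - 4 * W.a₄ ^ 3 - 4 * W.a₂ ^ 3 * W.a₆ -
        27 * W.a₆ ^ 2 + 18 * W.a₂ * W.a₄ * W.a₆) := by
      rw [WeierstrassCurve.Δ, WeierstrassCurve.b₂, WeierstrassCurve.b₄, WeierstrassCurve.b₆,
        WeierstrassCurve.b₈, w1, w3]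
      ring
    intro h2
    apply hΔ
    apply transcendental_iff_injective.1 hsM
    rw [map_zero, h1, w2, w4, w6]
    simp only [map_mul, map_add, map_sub, map_pow, map_ofNat, ← ha, ← hb, ← he2, ← hd, ← he]
    rw [h_D] at h2
    linear_combination 16 * h2
  have heq : y ^ 2 = x ^ 3 + e2 * x ^ 2 + (b * d - 4 * a * e) * x +
      (b ^ 2 * e + a * d ^ 2 - 4 * a * e2 * e) := by
    have h1 := hy
    rw [aeval_wpoly, w1, w3, w4, w2, w6] at h1
    simp only [Matrix.cons_val_zero, Matrix.cons_val_one, Matrix.cons_val, map_zero,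
      map_mul, map_pow, map_sub, map_add, map_ofNat, ← ht, ← ha, ← hb, ← he2, ← hd, ← he] at h1
    linear_combination h1
  have hal0 : ∀ w : M, IsAlgebraic (IntermediateField.adjoin k ({t, x, y} : Set M)) w := by
    have h1 : IntermediateField.adjoin k ({x, y, s} : Set M) ≤
        IntermediateField.adjoin k ({t, x, y} : Set M) := by
      rw [IntermediateField.adjoin_le_iff]
      rintro _ (rfl | rfl | rfl)
      · exact IntermediateField.subset_adjoin _ _ (by simp)
      · exact IntermediateField.subset_adjoin _ _ (by simp)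
      · rw [← ht]
        exact IntermediateField.subset_adjoin _ _ (by simp)
    exact fun w => alg_le h1 (hal w)
  obtain ⟨u, v, hut, huv0, hxuv, hyuv⟩ := h_point p hp2 htd t B a b e2 d e x y ha hb he2 hd he hD
    heq hal0
  have huv : v ^ 2 = ∑ i : Fin 5, aeval t (B i) * u ^ (i : ℕ) := by
    rw [huv0, Fin.sum_univ_five, h_g, ha, hb, he2, hd, he]
    show _ = aeval t (B 0) * u ^ 0 + aeval t (B 1) * u ^ 1 + aeval t (B 2) * u ^ 2 +
      aeval t (B 3) * u ^ 3 + aeval t (B 4) * u ^ 4
    ring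
  have hle3 : IntermediateField.adjoin k ({x, y, s} : Set M) ≤
      IntermediateField.adjoin k ({u, v, t} : Set M) := by
    rw [IntermediateField.adjoin_le_iff]
    rintro _ (rfl | rfl | rfl)
    · exact hxuv
    · exact hyuv
    · rw [← ht]
      exact IntermediateField.subset_adjoin _ _ (by simp)
  exact hB M htd t u v hut huv (fun b => alg_le hle3 (hal b)) F (hle.trans hle3) hFal

/-- the case (d) -/
theorem emt_GQ (p : ℕ) [Fact p.Prime] [CharP k p] (htd : Algebra.trdeg k M = 2) (s x y : M)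
    (hs : Transcendental k s) (hxs : ∀ G : k[X], x ≠ aeval s G)
    (W : WeierstrassCurve k[X]) (hy : MvPolynomial.aeval ![x, y, s] (wpoly W) = 0)
    (hal : ∀ b : M, IsAlgebraic (IntermediateField.adjoin k ({x, y, s} : Set M)) b)
    (hgeo : GeoQ p (X : k[X]) W) (S : Finset M)
    (hS : ∀ z ∈ S, ∃ φ F : k[X], AddPoly φ ∧ derivative φ ≠ 0 ∧ Low2 p F ∧
      aeval z φ = aeval s F) (F : IntermediateField k M)
    (hle : F ≤ IntermediateField.adjoin k (({x, y, s} : Set M) ∪ (S : Set M)))
    (hFal : ∀ b : M, IsAlgebraic F b) : Emt F := by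
  obtain ⟨U, S₁, hS₁, hx₁, hy₁⟩ := hgeo M _ _ inferInstance x y s hs hxs hy
  obtain ⟨E, hE⟩ : ∃ E : IntermediateField k M, E = IntermediateField.adjoin k {U} := ⟨_, rfl⟩
  -- the elements of `M` are algebraic over `k(U, s)`
  have hUal : ∀ b : M, IsAlgebraic (E ⊔ IntermediateField.adjoin k {s} :
      IntermediateField k M) b := by
    obtain ⟨A, hA⟩ : ∃ A : IntermediateField k M,
      A = E ⊔ IntermediateField.adjoin k {s} := ⟨_, rfl⟩
    have hmemA : ∀ a ∈ A, IsAlgebraic A a := fun a ha => isAlgebraic_algebraMap (⟨a, ha⟩ : A)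
    have hxy : ∀ a ∈ E ⊔ IntermediateField.adjoin k {s} ⊔
        IntermediateField.adjoin k (S₁ : Set M), IsAlgebraic A a := by
      intro a ha
      have h1 : E ⊔ IntermediateField.adjoin k {s} ⊔
          IntermediateField.adjoin k (S₁ : Set M) ≤
            (algebraicClosure A M).restrictScalars k := by
        refine sup_le ?_ ?_
        · rw [← hA]
          exact fun b hb => mem_algebraicClosure_iff.2 (hmemA b hb)
        · rw [IntermediateField.adjoin_le_iff]
          intro b hb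
          refine mem_algebraicClosure_iff.2 ?_
          subst hE
          obtain ⟨φ, f, -, a2, -, a4⟩ := hS₁ b hb
          rw [hA]
          exact gq_alg _ _ b φ f a2 a4
      exact mem_algebraicClosure_iff.1 (h1 ha)
    rw [← hA]
    intro b
    refine algTrans (K := IntermediateField.adjoin k ({x, y, s} : Set M)) A
      (fun a => ?_) b (hal b)
    refine alg_adjoin A _ ?_ (a : M) a.2
    rw [← hE] at hx₁ hy₁
    rintro _ (rfl | rfl | rfl)
    · exact hxy _ hx₁
    · exact hxy _ hy₁
    · refine hmemA _ ?_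
      rw [hA]
      exact (le_sup_right : IntermediateField.adjoin k _ ≤ _)
        (IntermediateField.mem_adjoin_simple_self k _)
  -- the field is contained in the tower
  obtain ⟨T, hT⟩ : ∃ T : Finset M, T = S₁ ∪ S := ⟨_, rfl⟩
  have hB₁ : E ⊔ IntermediateField.adjoin k {s} ⊔
      IntermediateField.adjoin k (S₁ : Set M) ≤
      E ⊔ IntermediateField.adjoin k {s} ⊔ IntermediateField.adjoin k (T : Set M) := by
    refine sup_le_sup le_rfl (IntermediateField.adjoin.mono _ _ _ ?_)
    rw [hT, Finset.coe_union]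
    exact Set.subset_union_left
  have hle' : F ≤ E ⊔ IntermediateField.adjoin k {s} ⊔ IntermediateField.adjoin k (T : Set M) := by
    refine hle.trans ?_
    rw [IntermediateField.adjoin_le_iff]
    rw [← hE] at hx₁ hy₁
    rintro b ((rfl | rfl | rfl) | hb)
    · exact hB₁ hx₁
    · exact hB₁ hy₁
    · exact (le_sup_left : E ⊔ IntermediateField.adjoin k {b} ≤ _)
        ((le_sup_right : IntermediateField.adjoin k {b} ≤ _)
          (IntermediateField.mem_adjoin_simple_self k _))
    · refine (le_sup_right : IntermediateField.adjoin k (T : Set M) ≤ _)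
        (IntermediateField.subset_adjoin _ _ ?_)
      rw [hT, Finset.coe_union]
      exact Or.inr hb
  -- the theorem on the towers
  have hEfg : E.FG := ⟨{U}, by rw [hE, Finset.coe_singleton]⟩
  have htE : Algebra.trdeg k E = 1 := by
    rw [hE] at hUal ⊢
    exact gq_trdeg htd U _ hUal
  have hX : (X : k[X]).natDegree ≠ 0 := by
    rw [natDegree_X]
    exact one_ne_zero
  refine tower_Qr p X hX htd E hEfg htE s hUal T ?_ _ hle' hFal
  intro z hz
  rw [hT, Finset.mem_union] at hz
  rcases hz with hz | hz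
  · subst hE
    exact hS₁ z hz
  · obtain ⟨φ, G, a1, a2, a3, a4⟩ := hS z hz
    refine ⟨φ.map (algebraMap k E), G.map (algebraMap k E), addPoly_map a1 E, ?_, ?_, ?_⟩
    · rw [derivative_map]
      exact (Polynomial.map_ne_zero_iff (algebraMap k E).injective).2 a2
    · rw [← Polynomial.map_comp, comp_X]
      exact a3.map _
    · rw [aeval_map_algebraMap, aeval_map_algebraMap, a4]

omit [IsAlgClosed M] in
/-- `M` is algebraic over `F(t)` -/
theorem alg_sup (htd : Algebra.trdeg k M = 2) (F : IntermediateField k M)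
    (htF : Algebra.trdeg k F = 1) (t : M) (ht : Transcendental F t) (b : M) :
    IsAlgebraic (F ⊔ IntermediateField.adjoin k {t} : IntermediateField k M) b := by
  have h0 : Algebra.Transcendental k F := by
    by_contra h1
    have h2 : Algebra.IsAlgebraic k F :=
      not_not.1 fun h3 => h1 (Algebra.transcendental_iff_not_isAlgebraic.2 h3)
    rw [trdeg_eq_zero_iff.2 h2] at htF
    exact zero_ne_one htF
  obtain ⟨s, hs⟩ := h0.transcendental
  have h1 := cr_alg htd s hs t ht b
  have h2 : (IntermediateField.adjoin F {t}).restrictScalars k =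
      F ⊔ IntermediateField.adjoin k {t} := by
    rw [IntermediateField.restrictScalars_adjoin, IntermediateField.adjoin_union,
      IntermediateField.adjoin_self]
  rw [← h2]
  exact h1

end

end Pool.Agent.EST
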